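import Pool.Agent.Q7.CJ.Stm

/-!
# Project CJ, job RP: the projection formula and extension of the field (helper79)
-/

set_option autoImplicit false

namespace Pool.Agent.Q79.CJ

open Polynomial TensorProduct
open Pool.Agent.Q7.CJ

section

variable (p : ℕ) {K : Type} (L : Type) [Field K] [Field L] [Algebra K L]

/-- `K[X] / (X^p - a)` -/
abbrev Ka (a : K) : Type := AdjoinRoot (X ^ p - C a : K[X])

theorem root_pow (a : K) : (AdjoinRoot.root (X ^ p - C a : K[X])) ^ p = algebraMap K (Ka p a) a := by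
  have h : AdjoinRoot.mk (X ^ p - C a : K[X]) (X ^ p - C a) = 0 := by
    rw [AdjoinRoot.mk_eq_zero]
  rw [map_sub, map_pow, AdjoinRoot.mk_X, AdjoinRoot.mk_C, sub_eq_zero] at h
  exact h

/-- the inclusion `K_a → L_a` -/
noncomputable def toLa (a : K) : Ka p a →ₐ[K] Ka p (algebraMap K L a) :=
  AdjoinRoot.liftAlgHom _ (Algebra.ofId K (Ka p (algebraMap K L a)))
    (AdjoinRoot.root (X ^ p - C (algebraMap K L a) : L[X])) (by
      rw [eval₂_sub, eval₂_X_pow, eval₂_C, root_pow, sub_eq_zero]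
      exact (IsScalarTower.algebraMap_apply K L (Ka p (algebraMap K L a)) a).symm)

theorem toLa_root (a : K) : toLa p L a (AdjoinRoot.root _) = AdjoinRoot.root _ := by
  unfold toLa
  exact AdjoinRoot.liftAlgHom_root _ _ _ _

/-- `L ⊗ K_a → L_a` -/
noncomputable def fw (a : K) : L ⊗[K] Ka p a →ₐ[L] Ka p (algebraMap K L a) :=
  Algebra.TensorProduct.lift (Algebra.ofId L (Ka p (algebraMap K L a))) (toLa p L a)
    (fun _ _ => Commute.all _ _)

theorem fw_tmul (a : K) (x : L) (y : Ka p a) :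
    fw p L a (x ⊗ₜ[K] y) = algebraMap L (Ka p (algebraMap K L a)) x * toLa p L a y :=
  Algebra.TensorProduct.lift_tmul _ _ _ _ _

/-- `L_a → L ⊗ K_a` -/
noncomputable def bw (a : K) : Ka p (algebraMap K L a) →ₐ[L] L ⊗[K] Ka p a :=
  AdjoinRoot.liftAlgHom (X ^ p - C (algebraMap K L a) : L[X]) (Algebra.ofId L (L ⊗[K] Ka p a))
      ((1 : L) ⊗ₜ[K] AdjoinRoot.root (X ^ p - C a : K[X])) (by
        rw [eval₂_sub, eval₂_X_pow, eval₂_C, Algebra.TensorProduct.tmul_pow, one_pow, root_pow, sub_eq_zero]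
        change _ = (algebraMap K L a) ⊗ₜ[K] (1 : Ka p a)
        rw [Algebra.algebraMap_eq_smul_one, Algebra.algebraMap_eq_smul_one, TensorProduct.tmul_smul,
          TensorProduct.smul_tmul'])

theorem bw_root (a : K) : bw p L a (AdjoinRoot.root _) = (1 : L) ⊗ₜ[K] AdjoinRoot.root (X ^ p - C a : K[X]) := by
  unfold bw
  exact AdjoinRoot.liftAlgHom_root _ _ _ _

/-- `L ⊗ K_a = L_a` -/
noncomputable def eqv (a : K) : L ⊗[K] Ka p a ≃ₐ[L] Ka p (algebraMap K L a) :=
  AlgEquiv.ofAlgHom (fw p L a) (bw p L a)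
    (by
      refine AdjoinRoot.algHom_ext ?_
      rw [AlgHom.comp_apply, bw_root, fw_tmul, map_one, one_mul, toLa_root]
      rfl)
    (by
      refine Algebra.TensorProduct.ext (by ext) ?_
      refine AdjoinRoot.algHom_ext ?_
      change bw p L a (fw p L a ((1 : L) ⊗ₜ[K] AdjoinRoot.root (X ^ p - C a : K[X]))) =
        (1 : L) ⊗ₜ[K] AdjoinRoot.root (X ^ p - C a : K[X])
      rw [fw_tmul, map_one, one_mul, toLa_root, bw_root])

theorem finite_Ka (hp : p ≠ 0) (a : K) : Module.Finite K (Ka p a) :=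
  (monic_X_pow_sub_C a hp).finite_adjoinRoot

theorem norm_tmul (hp : p ≠ 0) (a : K) (t : Ka p a) :
    Algebra.norm L ((1 : L) ⊗ₜ[K] t) = algebraMap K L (Algebra.norm K t) := by
  have := finite_Ka p hp a
  rw [Algebra.norm_apply, Algebra.norm_apply, ← LinearMap.det_baseChange]
  congr 1
  refine TensorProduct.AlgebraTensorModule.ext fun x y => ?_
  rw [LinearMap.baseChange_tmul]
  change ((1 : L) ⊗ₜ[K] t) * (x ⊗ₜ[K] y) = x ⊗ₜ[K] (t * y)
  rw [Algebra.TensorProduct.tmul_mul_tmul, one_mul]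

/-- the second part -/
theorem nr_ext (hp : p ≠ 0) (a b : K) (h : Nr p a b) : Nr p (algebraMap K L a) (algebraMap K L b) := by
  obtain ⟨t, ht⟩ := h
  refine ⟨eqv p L a ((1 : L) ⊗ₜ[K] t), ?_⟩
  rw [Algebra.norm_eq_of_algEquiv]
  exact (norm_tmul p L hp a t).trans (by rw [ht])

end

section

variable (p : ℕ) {K : Type} (L : Type) [Field K] [Field L] [Algebra K L]

attribute [local instance] Algebra.TensorProduct.rightAlgebra in
theorem norm_right (hp : p ≠ 0) [FiniteDimensional K L] (a : K) (z : L ⊗[K] Ka p a) :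
    Algebra.norm K (Algebra.norm (Ka p a) z) = Algebra.norm K (Algebra.norm L z) := by
  have : Module.Free K (Ka p a) := inferInstance
  have : Module.Finite K (Ka p a) := finite_Ka p hp a
  have : Module.Free (Ka p a) (L ⊗[K] Ka p a) :=
    Module.Free.of_equiv (Algebra.TensorProduct.commRight K (Ka p a) L).toLinearEquiv
  have : Module.Finite (Ka p a) (L ⊗[K] Ka p a) :=
    Module.Finite.equiv (Algebra.TensorProduct.commRight K (Ka p a) L).toLinearEquiv
  have : IsScalarTower K (Ka p a) (L ⊗[K] Ka p a) := inferInstance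
  rw [Algebra.norm_norm, Algebra.norm_norm]

/-- the first part -/
theorem nr_norm (hp : p ≠ 0) [FiniteDimensional K L] (a : K) (b : L) (h : Nr p (algebraMap K L a) b) :
    Nr p a (Algebra.norm K b) := by
  obtain ⟨t, ht⟩ := h
  let := Algebra.TensorProduct.rightAlgebra (R := K) (A := L) (B := Ka p a)
  refine ⟨Algebra.norm (Ka p a) ((eqv p L a).symm t), ?_⟩
  have h1 := norm_right p L hp a ((eqv p L a).symm t)
  refine h1.trans ?_
  rw [Algebra.norm_eq_of_algEquiv, ht]

end

/-- JOB RP -/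
theorem rp : S_RP := by
  intro p hp K L _ _ _ _
  refine ⟨?_, ?_⟩
  · intro hf a b _ _ h
    exact nr_norm p L (Fact.out (p := p.Prime)).ne_zero a b h
  · intro a b _ h
    exact nr_ext p L (Fact.out (p := p.Prime)).ne_zero a b h

end Pool.Agent.Q79.CJ
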